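import Pool.Agent.Helper79.AL.St3

/-! # AL MODULE ZED: the principal block is contained in one of the two factors of a product -/

set_option autoImplicit false

namespace Pool.Agent.Helper88.AL

open Matrix ComplexConjugate Pool.Agent.Helper94.YG
open Pool.Agent.Helper94.YF hiding StORB StYPR
open Pool.Agent.Helper89.OS Pool.Agent.Helper89.OC Pool.Agent.Helper79.AL

section

variable {I : Type} [Fintype I] [DecidableEq I]

/-- the arithmetic of the principal parameters -/
private theorem g_pos {Z : CentreData I} {p : ℕ} [NeZero p] {b : ZMod Z.L} {X : PD I p 1}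
    {Q : ℂ → Prop} {N : ℕ} {a w : I} {e : ℤ} {A : ℕ} (hO : OB X) (H : Gh Z b X Q N a w e A) :
    1 ≤ gX X ∧ 1 < X.y X.o := by
  have hg : 1 ≤ gX X := by
    rw [← H.gam.aO]
    have : 0 < (Orb X a).card := Finset.card_pos.2 ⟨a, hO.self a⟩
    exact_mod_cast this
  refine ⟨hg, ?_⟩
  have h1 := H.gam.pN
  have h3 : (3 : ℤ) ≤ (N : ℤ) := by exact_mod_cast H.gam.N_ge
  have hx : X.y X.o = (p : ℤ) - gX X := by unfold gX; ring
  rw [hx]
  nlinarith

/-- the core computation: an orbit sum which contradicts TS2 -/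
private theorem core {p : ℕ} [NeZero p] {X : PD I p 1} {Q : ℂ → Prop} (hTS2 : StTS2)
    (hORB : Helper89.OC.StORB) (hB : Blk X Q) (k j' : I) (hk : k ∈ Ks X)
    (hj1 : j' ∉ Orb X k) (hj2 : j' ≠ X.o) (hy : X.y j' ≠ 0)
    (_hx : X.y X.o ≠ 0)
    (hs : ∀ l ∈ Orb X k, (X.y X.o : ℂ) * X.s j' l = (X.y k : ℂ) * X.y j') : False := by
  have hO := hORB I p X
  have hT := (hTS2 hORB I p X Q hB k hk).1 j'
  rw [if_neg hj1, if_neg hj2] at hT
  have h1 : ∑ l, X.s j' l * ((gX X : ℂ) * (if l ∈ Orb X k then 1 else 0) +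
      ((Orb X k).card : ℂ) * X.y k * (if l = X.o then 1 else 0)) =
      (gX X : ℂ) * ∑ l ∈ Orb X k, X.s j' l +
        ((Orb X k).card : ℂ) * X.y k * X.y j' := by
    have e1 : ∀ l, X.s j' l * ((gX X : ℂ) * (if l ∈ Orb X k then 1 else 0) +
        ((Orb X k).card : ℂ) * X.y k * (if l = X.o then 1 else 0)) =
        (if l ∈ Orb X k then (gX X : ℂ) * X.s j' l else 0) +
        (if l = X.o then ((Orb X k).card : ℂ) * X.y k * X.s j' l else 0) := by
      intro l
      split_ifs <;> ring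
    rw [Finset.sum_congr rfl fun l _ => e1 l, Finset.sum_add_distrib, Finset.sum_ite_mem,
      Finset.univ_inter, ← Finset.mul_sum, Finset.sum_ite_eq' Finset.univ X.o,
      if_pos (Finset.mem_univ _), X.s_o]
  rw [h1] at hT
  have h2 : (X.y X.o : ℂ) * ∑ l ∈ Orb X k, X.s j' l =
      ((Orb X k).card : ℂ) * ((X.y k : ℂ) * X.y j') := by
    rw [Finset.mul_sum, Finset.sum_congr rfl hs, Finset.sum_const, nsmul_eq_mul]
  have h3 : ((gX X : ℂ) + X.y X.o) * (((Orb X k).card : ℂ) * ((X.y k : ℂ) * X.y j')) = 0 := by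
    have : (X.y X.o : ℂ) * ((gX X : ℂ) * ∑ l ∈ Orb X k, X.s j' l +
        ((Orb X k).card : ℂ) * X.y k * X.y j') = 0 := by
      rw [hT]; ring
    rw [mul_add, mul_left_comm, h2] at this
    linear_combination this
  have h4 : (gX X : ℂ) + X.y X.o = (p : ℂ) := by
    unfold gX; push_cast; ring
  rw [h4] at h3
  have hp : (p : ℂ) ≠ 0 := by exact_mod_cast NeZero.ne p
  have hc : ((Orb X k).card : ℂ) ≠ 0 := by
    have : (Orb X k).card ≠ 0 := Finset.card_ne_zero_of_mem (hO.self k)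
    exact_mod_cast this
  have hyk : (X.y k : ℂ) ≠ 0 := by
    unfold Ks at hk
    exact_mod_cast (Finset.mem_filter.1 hk).2.1
  have hyj : (X.y j' : ℂ) ≠ 0 := by exact_mod_cast hy
  exact (mul_ne_zero hp (mul_ne_zero hc (mul_ne_zero hyk hyj))) h3

/-- (A): nonzero entries of `y` on both factors are impossible -/
private theorem partA (hYPR : StYPR) (hTS2 : StTS2) (hORB : Helper89.OC.StORB) (hGLA : StGLA)
    (hLKN : StLKN) {Z : CentreData I} {p : ℕ} [NeZero p] {b : ZMod Z.L} {X : PD I p 1}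
    {Q : ℂ → Prop} {N : ℕ} {a w : I} {e : ℤ} {A : ℕ} {D1 D2 : I → Prop} {m : I → I → I}
    (H : Gh Z b X Q N a w e A) (hS : Spl Z D1 D2 m) (h1 : ∀ c i, D1 i → D1 (X.pi c i))
    (h2 : ∀ c i, D2 i → D2 (X.pi c i)) (i j : I) (hi : D1 i) (hj : D2 j) (hio : i ≠ Z.o)
    (hjo : j ≠ Z.o) (hyi : X.y i ≠ 0) (hyj : X.y j ≠ 0) : False := by
  have hO := hORB I p X
  obtain ⟨hg, hx⟩ := g_pos hO H
  have hx0 : X.y X.o ≠ 0 := by omega
  have lk := H.lq.lk
  have ho : X.o = Z.o := lk.o
  have hst : X.st = Z.st := lk.st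
  have hP := fun i j h h' => hYPR hGLA hLKN I Z p b X D1 D2 m lk hS i j h h'
  have mem : ∀ k l, l ∈ Orb X k → ∃ c, X.pi c k = l := by
    intro k l hl
    simp only [Orb, Finset.mem_filter, Finset.mem_univ, true_and] at hl
    exact hl
  have st1 : ∀ i, D1 i → D1 (X.st i) := by
    intro i hi; rw [hst]; exact hS.fs1.st i hi
  have st2 : ∀ i, D2 i → D2 (X.st i) := by
    intro i hi; rw [hst]; exact hS.fs2.st i hi
  have sto : ∀ i, X.st i = X.o → i = X.o := by
    intro i hi
    have := X.st_st i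
    rw [hi, X.st_o] at this
    exact this.symm
  by_cases hti : X.t i = 1
  · refine core hTS2 hORB H.gam.blk i (X.st j) ?_ ?_ ?_ ?_ hx0 ?_
    · unfold Ks
      exact Finset.mem_filter.2 ⟨Finset.mem_univ _, hyi, hti, by rw [ho]; exact hio⟩
    · intro hm
      obtain ⟨c, hc⟩ := mem _ _ hm
      have : D1 (X.st j) := by rw [← hc]; exact h1 c i hi
      have := hS.int _ this (st2 j hj)
      rw [← ho] at this
      exact hjo (by rw [← ho]; exact sto j this)
    · intro h
      exact hjo (by rw [← ho]; exact sto j h)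
    · rw [X.y_st]; exact hyj
    · intro l hl
      obtain ⟨c, hc⟩ := mem _ _ hl
      have hl1 : D1 l := by rw [← hc]; exact h1 c i hi
      obtain ⟨q1, q2⟩ := hP l j hl1 hj
      rw [X.s_symm, q2, X.y_st, ← hO.y i l hl]
      exact_mod_cast q1
  by_cases htj : X.t j = 1
  · refine core hTS2 hORB H.gam.blk j (X.st i) ?_ ?_ ?_ ?_ hx0 ?_
    · unfold Ks
      exact Finset.mem_filter.2 ⟨Finset.mem_univ _, hyj, htj, by rw [ho]; exact hjo⟩
    · intro hm
      obtain ⟨c, hc⟩ := mem _ _ hm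
      have : D2 (X.st i) := by rw [← hc]; exact h2 c j hj
      have := hS.int _ (st1 i hi) this
      rw [← ho] at this
      exact hio (by rw [← ho]; exact sto i this)
    · intro h
      exact hio (by rw [← ho]; exact sto i h)
    · rw [X.y_st]; exact hyi
    · intro l hl
      obtain ⟨c, hc⟩ := mem _ _ hl
      have hl2 : D2 l := by rw [← hc]; exact h2 c j hj
      obtain ⟨q1, q2⟩ := hP (X.st i) (X.st l) (st1 i hi) (st2 l hl2)
      rw [X.st_st] at q2
      rw [q2, X.y_st]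
      rw [X.y_st, X.y_st, hO.y j l hl] at q1
      rw [mul_comm ((X.y j : ℂ))]
      exact_mod_cast q1
  · have e1 := (H.yd i hyi hti).1
    have e2 := (H.yd j hyj htj).1
    have q1 := (hP i j hi hj).1
    rw [e1, e2, ← sq, H.e2] at q1
    have hd : X.y X.o ∣ 1 := ⟨_, q1.symm⟩
    have := Int.le_of_dvd one_pos hd
    omega

end

/-- **AL MODULE ZED.** -/
theorem hZED : StZED := by
  intro hYPR hTS2 hORB hGLA hLKN I _ _ Z p _ b X Q N a w e A D1 D2 m H hS h1 h2
  have hO := hORB I p X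
  obtain ⟨hg, hx⟩ := g_pos hO H
  have hx0 : X.y X.o ≠ 0 := by omega
  have lk := H.lq.lk
  have hA : ∀ i j, D1 i → D2 j → X.y i ≠ 0 → X.y j ≠ 0 → i = Z.o ∨ j = Z.o := by
    intro i j hi hj hyi hyj
    by_contra hcon
    push Not at hcon
    exact partA hYPR hTS2 hORB hGLA hLKN H hS h1 h2 i j hi hj hcon.1 hcon.2 hyi hyj
  have hB : ∀ k, X.y k ≠ 0 → D1 k ∨ D2 k := by
    intro k hk
    obtain ⟨k1, k2, hk1, hk2, hm⟩ := hS.sur k
    have q := (hYPR hGLA hLKN I Z p b X D1 D2 m lk hS k1 k2 hk1 hk2).1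
    rw [hm] at q
    have hne : X.y k1 * X.y k2 ≠ 0 := by rw [← q]; exact mul_ne_zero hx0 hk
    rcases hA k1 k2 hk1 hk2 (left_ne_zero_of_mul hne) (right_ne_zero_of_mul hne) with h | h
    · right
      rw [h, hS.om k2 hk2] at hm
      rw [← hm]; exact hk2
    · left
      rw [h, hS.mo k1 hk1] at hm
      rw [← hm]; exact hk1
  by_cases hex : ∃ k, k ≠ Z.o ∧ X.y k ≠ 0 ∧ D1 k
  · left
    obtain ⟨k, hko, hyk, hk1⟩ := hex
    intro k' hk'
    rcases hB k' hk' with h | h
    · exact h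
    · rcases hA k k' hk1 h hyk hk' with h' | h'
      · exact absurd h' hko
      · rw [h']; exact hS.fs1.o
  · right
    push Not at hex
    intro k' hk'
    rcases hB k' hk' with h | h
    · by_cases hko : k' = Z.o
      · rw [hko]; exact hS.fs2.o
      · exact absurd h (hex k' hko hk')
    · exact h

end Pool.Agent.Helper88.AL
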